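import Mathlib
import Pool.Agent.TH841.NF.One
import Pool.Agent.Y682.Rst
import Pool.Agent.Y682.Rk

/-!
# Groups with 2-power torsion of bounded exponent and base change
-/

set_option autoImplicit false

namespace Pool.Agent.Y723.QT

open WeierstrassCurve

open Pool.Agent.TH841.NF

open Pool.Agent.W307.RT (Sh)

section grp

variable {G H : Type} [AddCommGroup G] [AddCommGroup H]

/-- the elements of 2-power order are killed by `2 ^ n` -/
def Kl (G : Type) [AddCommGroup G] (n : ℕ) : Prop :=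
  ∀ (k : ℕ) (x : G), (2 ^ k : ℕ) • x = 0 → (2 ^ n : ℕ) • x = 0

/-- the elements of 2-power order form a finite set -/
def F2 (G : Type) [AddCommGroup G] : Prop := {x : G | ∃ k : ℕ, (2 ^ k : ℕ) • x = 0}.Finite

lemma pow_kill {m n : ℕ} (h : m ≤ n) {x : G} (hx : (2 ^ m : ℕ) • x = 0) : (2 ^ n : ℕ) • x = 0 := by
  obtain ⟨k, rfl⟩ := Nat.exists_eq_add_of_le h
  rw [pow_add, mul_comm, mul_nsmul', hx, smul_zero]

lemma Kl.mono {m n : ℕ} (h : Kl G m) (hmn : m ≤ n) : Kl G n :=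
  fun k x hx => pow_kill hmn (h k x hx)

lemma f2_iff (hG : Finite {x : G // x + x = 0}) : F2 G ↔ ∃ n, Kl G n := by
  constructor
  · intro h
    have h1 : ∀ x : G, ∃ k : ℕ, (∃ k : ℕ, (2 ^ k : ℕ) • x = 0) → (2 ^ k : ℕ) • x = 0 := by
      intro x
      by_cases hx : ∃ k : ℕ, (2 ^ k : ℕ) • x = 0
      · obtain ⟨k, hk⟩ := hx
        exact ⟨k, fun _ => hk⟩
      · exact ⟨0, fun h => absurd h hx⟩
    choose k hk using h1
    refine ⟨h.toFinset.sup k, fun j x hx => ?_⟩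
    exact pow_kill (Finset.le_sup (f := k) (h.mem_toFinset.2 ⟨j, hx⟩)) (hk x ⟨j, hx⟩)
  · rintro ⟨n, hn⟩
    have h1 := (Pool.Agent.TH841.SH.card_tor hG n).1
    have h2 : {x : G | (2 ^ n : ℕ) • x = 0}.Finite := Set.finite_coe_iff.1 h1
    exact h2.subset fun x ⟨k, hx⟩ => hn k x hx

/-- a homomorphism with a kernel killed by `m` -/
lemma kl_of_ker {θ : G →+ H} {m n : ℕ} (hm : m ≠ 0) (hθ : ∀ x, θ x = 0 → m • x = 0) (h : Kl H n) :
    Kl G (n + m) := by
  intro k x hx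
  have h1 : m • ((2 ^ n : ℕ) • x) = 0 := by
    apply hθ
    rw [map_nsmul]
    exact h k _ (by rw [← map_nsmul, hx, map_zero])
  obtain ⟨y, hy⟩ : ∃ y : G, y = (2 ^ n : ℕ) • x := ⟨_, rfl⟩
  rw [← hy] at h1
  have h2 : (2 ^ k : ℕ) • y = 0 := by
    rw [hy, smul_comm, hx, smul_zero]
  have h3 : addOrderOf y ∣ m := addOrderOf_dvd_of_nsmul_eq_zero h1
  have h4 : addOrderOf y ∣ 2 ^ k := addOrderOf_dvd_of_nsmul_eq_zero h2
  obtain ⟨j, -, hj⟩ := (Nat.dvd_prime_pow Nat.prime_two).1 h4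
  have h5 : j ≤ m := by
    have h6 : 2 ^ j ≤ m := Nat.le_of_dvd (Nat.pos_of_ne_zero hm) (hj ▸ h3)
    exact (Nat.lt_two_pow_self).le.trans h6
  have h6 : (2 ^ j : ℕ) • y = 0 := by
    rw [← hj]
    exact addOrderOf_nsmul_eq_zero y
  have h7 := pow_kill h5 h6
  rw [hy] at h7
  rw [pow_add, mul_comm, mul_nsmul']
  exact h7

end grp

section base

variable {F : Type} [Field F] [NumberField F]

lemma exists_e (F : Type) [Field F] [NumberField F] : Nonempty (AlgebraicClosure F ≃+* Qb) := by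
  have h1 : Algebra.IsAlgebraic ℚ (AlgebraicClosure F) := Algebra.IsAlgebraic.trans ℚ F _
  have h2 : IsAlgClosure ℚ (AlgebraicClosure F) := ⟨inferInstance, h1⟩
  exact ⟨(IsAlgClosure.equiv ℚ (AlgebraicClosure F) (AlgebraicClosure ℚ)).toRingEquiv⟩

/-- base change to a multiquadratic field -/
lemma base_kl {s : ℕ} {r : Fin s → F} {d : Fin s → ℚ}
    (hr : ∀ i, r i ^ 2 = algebraMap ℚ F (d i)) (hd : ∀ i, d i ≠ 0)
    (hgen : IntermediateField.adjoin ℚ (Set.range r) = ⊤) {A B : ℤ} {n : ℕ}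
    (hT : ∀ T : Finset (Fin s), Kl (Pool.Agent.TH841.SH.D.Sha (tw (∏ i ∈ T, d i) (Sh A B))) n) :
    Kl (D.Sha (EF A B F)) (s + n) := by
  obtain ⟨e⟩ := exists_e F
  intro k x hx
  have h1 := thS_ker (sc_EF A B F) rfl rfl e hr hd hgen ((2 ^ n : ℕ) • x) (fun T => by
    rw [map_nsmul]
    exact hT T k _ (by rw [← map_nsmul, hx, map_zero]))
  rw [pow_add, mul_nsmul']
  exact h1

lemma tw_one (A B : ℤ) : tw 1 (Sh A B) = Sh A B := by
  apply WeierstrassCurve.ext <;> simp [tw, Sh]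

/-- base change to a quadratic field -/
lemma base_one {r : F} {d : ℚ} (hr : r ^ 2 = algebraMap ℚ F d) (hd : d ≠ 0)
    (hgen : IntermediateField.adjoin ℚ {r} = ⊤) {A B : ℤ} {n : ℕ}
    (h0 : Kl (Pool.Agent.TH841.SH.D.Sha (Sh A B)) n)
    (h1 : Kl (Pool.Agent.TH841.SH.D.Sha (tw d (Sh A B))) n) :
    Kl (D.Sha (EF A B F)) (n + 1) := by
  rw [add_comm]
  refine base_kl (s := 1) (r := fun _ => r) (d := fun _ => d) (fun _ => hr) (fun _ => hd) ?_
    (fun T => ?_)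
  · rw [Set.range_const]
    exact hgen
  · rw [Finset.prod_const]
    have hc : T.card ≤ 1 := by
      have := Finset.card_le_univ T
      simpa using this
    interval_cases hT : T.card
    · rw [pow_zero, tw_one]
      exact h0
    · rw [pow_one]
      exact h1

/-- the other direction -/
lemma base_back {A B : ℤ} {n : ℕ} (h : Kl (D.Sha (EF A B F)) n) :
    Kl (Pool.Agent.TH841.SH.D.Sha (Sh A B)) (n + Module.finrank ℚ F) := by
  obtain ⟨e⟩ := exists_e F
  refine kl_of_ker (θ := Pool.Agent.Y682.rsS (sc_EF A B F) e)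
    (Module.finrank_pos (R := ℚ) (M := F)).ne' (fun x hx => ?_) h
  rw [← Pool.Agent.Y682.coS_rsS (sc_EF A B F) e x, hx, map_zero]

end base

end Pool.Agent.Y723.QT
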