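import Mathlib
import Pool.Agent.Y682.AM
import Pool.Agent.H437R2.Man.MWWeak
import Pool.Agent.TH841.NF.One

/-!
# The Tate-Shafarevich group of a curve with a point of order two over a number field: the elements
killed by a power of two form a finite group
-/

set_option autoImplicit false

attribute [-instance] DivisionRing.toRatAlgebra

open NumberField IsDedekindDomain

namespace Pool.Agent.Y723.QT

open WeierstrassCurve

open Pool.Agent.TH841.NF

open Pool.Agent.Y682 (Sq par quot_eq wc wc_isT LL1 LL2 even_b1 unr_b2 par_zero_of_unrC ev_iff Zc_card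
  Zc_lower)

section

variable {K : Type} [Field K] [NumberField K]

/-- the classes with even valuations outside `S` -/
def US (S : Set (HeightOneSpectrum (𝓞 K))) : Set (Kˣ ⧸ Sq K) :=
  {q | ∃ b : Kˣ, (b : Kˣ ⧸ Sq K) = q ∧ ∀ v ∉ S, par v b = 0}

lemma US_finite {S : Set (HeightOneSpectrum (𝓞 K))} (hS : S.Finite) : (US S).Finite := by
  classical
  obtain ⟨T, hT0, hT⟩ := Pool.Agent.H437R2.Man.MW.sel_finite S hS
  refine (T.finite_toSet.image (fun t => if h : t = 0 then (1 : Kˣ ⧸ Sq K) else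
    ((Units.mk0 t h : Kˣ) : Kˣ ⧸ Sq K))).subset ?_
  rintro q ⟨b, rfl, hb⟩
  obtain ⟨t, ht, r, hr, e⟩ := hT b (fun v hv => by
    have h1 := hb v hv
    unfold par at h1
    rw [← v.valuationOfNeZero_eq, ZMod.intCast_zmod_eq_zero_iff_dvd] at h1
    rw [even_iff_two_dvd]
    exact h1)
  refine ⟨t, ht, ?_⟩
  simp only [dif_neg (hT0 t ht)]
  rw [quot_eq]
  exact ⟨Units.mk0 r hr, Units.ext (by
    rw [Units.val_mul, Units.val_pow_eq_pow_val, Units.val_mk0, Units.val_mk0, e])⟩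

lemma fin_le (k : K) : {v : HeightOneSpectrum (𝓞 K) | ¬ v.valuation K k ≤ 1}.Finite := by
  by_cases hk : k = 0
  · subst hk
    simp
  · refine (Pool.Agent.H437R2.Man.MW.finite_val_ne_one k hk).subset fun v hv h => hv h.le

/-- the curve `y² = x³ + A x² + B x` -/
theorem tf_wc {A B : K} (hB : B ≠ 0) (hD : A ^ 2 - 4 * B ≠ 0) :
    Finite {x : Pool.Agent.TH841.NF.D.Sha (wc A B) // 2 • x = 0} := by
  obtain ⟨S, hSd⟩ : ∃ S : Set (HeightOneSpectrum (𝓞 K)), S = ({v | v.valuation K 2 ≠ 1} ∪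
      {v | v.valuation K B ≠ 1}) ∪ ({v | v.valuation K (A ^ 2 - 4 * B) ≠ 1} ∪
      {v | ¬ v.valuation K A ≤ 1}) := ⟨_, rfl⟩
  have hS : S.Finite := by
    rw [hSd]
    exact ((Pool.Agent.H437R2.Man.MW.finite_val_ne_one _ two_ne_zero).union
      (Pool.Agent.H437R2.Man.MW.finite_val_ne_one _ hB)).union
      ((Pool.Agent.H437R2.Man.MW.finite_val_ne_one _ hD).union (fin_le A))
  have hv : ∀ v ∉ S, v.valuation K 2 = 1 ∧ v.valuation K B = 1 ∧
      v.valuation K (A ^ 2 - 4 * B) = 1 ∧ v.valuation K A ≤ 1 := by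
    intro v hv
    rw [hSd] at hv
    simp only [Set.mem_union, Set.mem_setOf_eq, not_or, not_not] at hv
    exact ⟨hv.1.1, hv.1.2, hv.2.1, hv.2.2⟩
  have h4 : ∀ v ∉ S, v.valuation K 4 = 1 ∧ v.valuation K 16 = 1 := by
    intro v h
    have e4 : (4 : K) = 2 ^ 2 := by norm_num
    have e16 : (16 : K) = 2 ^ 4 := by norm_num
    rw [e16, e4, map_pow, map_pow, (hv v h).1, one_pow, one_pow]
    exact ⟨rfl, rfl⟩
  have hA : A = 0 ^ 2 + 4 * (A / 4) := by ring
  have hBC : B = 16 * (B / 16) := by ring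
  have hs : ∀ v : HeightOneSpectrum (𝓞 K), v.valuation K 0 ≤ 1 := fun v => by
    rw [map_zero]
    exact zero_le_one
  have hu : ∀ v ∉ S, v.valuation K (A / 4) ≤ 1 := by
    intro v h
    rw [map_div₀, (h4 v h).1, div_one]
    exact (hv v h).2.2.2
  have hC : ∀ v ∉ S, v.valuation K (B / 16) = 1 := by
    intro v h
    rw [map_div₀, (h4 v h).2, div_one]
    exact (hv v h).2.1
  have hfin : Finite (US S) := (US_finite hS).to_subtype
  have h1 : (1 : Kˣ ⧸ Sq K) ∈ US S := ⟨1, rfl, fun v _ => by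
    unfold par
    rw [Units.val_one, map_one, WithZero.log_one]
    rfl⟩
  obtain ⟨hf, -⟩ := Zc_card (wc_isT hB hD) (U := US S) (V := US S) h1
    (fun b hb => ⟨b, rfl, fun v hvS => ev_iff.1
      (even_b1 b.ne_zero v (hb.1 v) hA (hs v) (hu v hvS) hBC (hC v hvS))⟩)
    (fun b hb => ⟨b, rfl, fun v hvS => par_zero_of_unrC
      (unr_b2 v (hb.1 v) hA (hs v) (hu v hvS) hBC (hC v hvS).le (hv v hvS).2.2.1)⟩)
  exact (Zc_lower (wc_isT hB hD)).1

end

end Pool.Agent.Y723.QT
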