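import Mathlib
import Pool.Agent.Y723.QT.Tf
import Pool.Agent.Y723.QT.Bc
import Pool.Agent.TH841.SH.Wt
import Pool.Agent.Y655.XT.Shavc

/-!
# Curves with a point of order two: finiteness over number fields, ranks over quadratic fields
-/

set_option autoImplicit false

namespace Pool.Agent.Y723.QT

open WeierstrassCurve

open Pool.Agent.TH841.NF

open Pool.Agent.W307.RT (Sh)

open Pool.Agent.Y682 (MP mt mt_inj wc wc_isT fg_MP)

open Pool.Agent.Y700 (VR)

section gen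

variable {F : Type} [Field F] {W W' : WeierstrassCurve F} {u r s t : F}

/-- the isomorphism on points -/
noncomputable def mpE (h : VR W W' u r s t) (hD : W'.Δ ≠ 0) : MP W' ≃+ MP W :=
  @VR.equiv F _ (Classical.decEq F) _ _ _ _ _ _ h hD

lemma grp_eq (E : WeierstrassCurve ℚ) :
    (@Affine.Point.instAddCommGroup ℚ _ E.toAffine instDecidableEqRat) =
      (@Affine.Point.instAddCommGroup ℚ _ E.toAffine (Classical.decEq ℚ)) := by
  have h : (instDecidableEqRat : DecidableEq ℚ) = Classical.decEq ℚ := Subsingleton.elim _ _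
  rw [h]

lemma rkQ_eq (E : WeierstrassCurve ℚ) :
    Pool.Agent.TH841.SH.D.rk E = Module.finrank ℤ (MP E) := by
  unfold Pool.Agent.TH841.SH.D.rk MP MP.group
  rw [grp_eq]

lemma finQ (E : WeierstrassCurve ℚ) : Module.Finite ℤ E.toAffine.Point ↔ Module.Finite ℤ (MP E) := by
  unfold MP MP.group
  rw [grp_eq]

end gen

section tf

variable {F : Type} [Field F] [NumberField F]

lemma delta_EF (A B : ℤ) : (EF A B F).Δ = -16 * (4 * (A : F) ^ 3 + 27 * (B : F) ^ 2) := by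
  simp only [EF, WeierstrassCurve.Δ, WeierstrassCurve.b₂, WeierstrassCurve.b₄,
    WeierstrassCurve.b₆, WeierstrassCurve.b₈]
  ring

variable {A B : ℤ} (hD : 4 * A ^ 3 + 27 * B ^ 2 ≠ 0) {e : ℤ} (he : e ^ 3 + A * e + B = 0)

include hD he

lemma shift_ne : (A + 3 * e ^ 2 : F) ≠ 0 ∧ ((3 * e : F) ^ 2 - 4 * (A + 3 * e ^ 2)) ≠ 0 := by
  have h1 : 4 * A ^ 3 + 27 * B ^ 2 = (A + 3 * e ^ 2) ^ 2 * (4 * A + 3 * e ^ 2) := by
    have hB : B = -(e ^ 3 + A * e) := by linarith
    rw [hB]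
    ring
  rw [h1] at hD
  have h2 : (A + 3 * e ^ 2 : ℤ) ≠ 0 := fun h => hD (by rw [h]; ring)
  have h3 : (4 * A + 3 * e ^ 2 : ℤ) ≠ 0 := fun h => hD (by rw [h]; ring)
  constructor
  · exact_mod_cast h2
  · intro h
    apply h3
    have h4 : ((4 * A + 3 * e ^ 2 : ℤ) : F) = 0 := by
      push_cast
      linear_combination -h
    exact_mod_cast h4

lemma vr_shift : VR (EF A B F) (wc (3 * e : F) (A + 3 * e ^ 2)) 1 e 0 0 where
  u0 := one_ne_zero
  e1 := by simp [EF, wc]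
  e2 := by simp [EF, wc]
  e3 := by simp [EF, wc]
  e4 := by simp [EF, wc]
  e6 := by
    have h : ((e ^ 3 + A * e + B : ℤ) : F) = 0 := by rw [he, Int.cast_zero]
    push_cast at h
    simp only [EF, wc]
    linear_combination -h

lemma delta_wc : (wc (3 * e : F) (A + 3 * e ^ 2)).Δ ≠ 0 := by
  obtain ⟨h1, h2⟩ := shift_ne (F := F) hD he
  have h3 : (wc (3 * e : F) (A + 3 * e ^ 2)).Δ = 16 * ((A + 3 * e ^ 2 : F) ^ 2 *
      ((3 * e : F) ^ 2 - 4 * (A + 3 * e ^ 2))) := by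
    simp only [wc, WeierstrassCurve.Δ, WeierstrassCurve.b₂, WeierstrassCurve.b₄,
      WeierstrassCurve.b₆, WeierstrassCurve.b₈]
    ring
  rw [h3]
  exact mul_ne_zero (by norm_num) (mul_ne_zero (pow_ne_zero 2 h1) h2)

/-- finiteness of the elements of order two -/
lemma tf_EF : Finite {x : D.Sha (EF A B F) // x + x = 0} := by
  obtain ⟨h1, h2⟩ := shift_ne (F := F) hD he
  have h3 := @tf_wc F _ _ (3 * e : F) (A + 3 * e ^ 2) h1 h2
  have I := (Pool.Agent.Y655.XT.isoVR (vr_shift (F := F) hD he) (delta_wc hD he)).sha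
  refine Finite.of_injective (β := {x : D.Sha (wc (3 * e : F) (A + 3 * e ^ 2)) // 2 • x = 0})
    (fun x => ⟨I.symm x.1, by rw [two_nsmul, ← map_add, x.2, map_zero]⟩) ?_
  intro x y h
  have h4 := congrArg Subtype.val h
  exact Subtype.ext (I.symm.injective h4)

/-- Mordell-Weil -/
lemma fg_EF : Module.Finite ℤ (MP (EF A B F)) := by
  obtain ⟨h1, h2⟩ := shift_ne (F := F) hD he
  have h3 : Module.Finite ℤ (MP (wc (3 * e : F) (A + 3 * e ^ 2))) := fg_MP (wc_isT h1 h2)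
  exact Module.Finite.equiv (mpE (vr_shift (F := F) hD he) (delta_wc hD he)).toIntLinearEquiv

/-- the rank does not decrease -/
lemma rk_ge : Pool.Agent.TH841.SH.D.rk (Sh A B) ≤ D.rk (EF A B F) := by
  have h1 := fg_EF (F := F) hD he
  rw [rkQ_eq]
  change Module.finrank ℤ (MP (Sh A B)) ≤ Module.finrank ℤ (MP (EF A B F))
  exact LinearMap.finrank_le_finrank_of_injective
    (f := (mt (sc_EF A B F)).toIntLinearMap) (mt_inj (sc_EF A B F))

end tf

section rk

variable {F : Type} [Field F] [NumberField F]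

open scoped Classical in
/-- the rank over a quadratic field -/
lemma rk_le {r : F} {d : ℤ} (hr : r ^ 2 = (d : F)) (hd : d ≠ 0)
    (hgen : IntermediateField.adjoin ℚ {r} = ⊤) {A B : ℤ} (hD : 4 * A ^ 3 + 27 * B ^ 2 ≠ 0)
    (h0 : Module.Finite ℤ (Sh A B).toAffine.Point)
    (h1 : Module.Finite ℤ (Sh (d ^ 2 * A) (d ^ 3 * B)).toAffine.Point) :
    D.rk (EF A B F) ≤ Pool.Agent.TH841.SH.D.rk (Sh A B) +
      Pool.Agent.TH841.SH.D.rk (Sh (d ^ 2 * A) (d ^ 3 * B)) := by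
  have h3 := Pool.Agent.W307.RS.mq2 F 1 (fun _ => r) (fun _ => d) (fun _ => hr) (fun _ => hd)
    (by rw [Set.range_const]; exact hgen) A B hD
  have hu : (Finset.univ : Finset (Finset (Fin 1))) = {∅, {0}} := rfl
  rw [hu, Finset.sum_pair (Finset.singleton_ne_empty _).symm, Finset.prod_empty,
    Finset.prod_singleton, one_pow, one_pow, one_mul, one_mul] at h3
  have h4 : Module.rank ℤ (Sh A B).toAffine.Point =
      ((Module.finrank ℤ (Sh A B).toAffine.Point : ℕ) : Cardinal) :=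
    (Module.finrank_eq_rank ℤ _).symm
  have h5 : Module.rank ℤ (Sh (d ^ 2 * A) (d ^ 3 * B)).toAffine.Point =
      ((Module.finrank ℤ (Sh (d ^ 2 * A) (d ^ 3 * B)).toAffine.Point : ℕ) : Cardinal) :=
    (Module.finrank_eq_rank ℤ _).symm
  rw [h4, h5, ← Nat.cast_add] at h3
  exact Module.finrank_le_of_rank_le h3

/-- scaling -/
lemma rk_scale {A B u : ℤ} (hu : u ≠ 0) (hD : 4 * A ^ 3 + 27 * B ^ 2 ≠ 0) :
    Pool.Agent.TH841.SH.D.rk (Sh (u ^ 4 * A) (u ^ 6 * B)) = Pool.Agent.TH841.SH.D.rk (Sh A B) := by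
  have h : VR (Sh (u ^ 4 * A) (u ^ 6 * B)) (Sh A B) (u : ℚ) 0 0 0 :=
    { u0 := by exact_mod_cast hu
      e1 := by simp [Sh]
      e2 := by simp [Sh]
      e3 := by simp [Sh]
      e4 := by simp [Sh]
      e6 := by simp [Sh] }
  have hD' : (Sh A B).Δ ≠ 0 := by
    have h1 : (Sh A B).Δ = -16 * ((4 * A ^ 3 + 27 * B ^ 2 : ℤ) : ℚ) := by
      simp only [Sh, WeierstrassCurve.Δ, WeierstrassCurve.b₂, WeierstrassCurve.b₄,
        WeierstrassCurve.b₆, WeierstrassCurve.b₈]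
      push_cast
      ring
    rw [h1]
    exact mul_ne_zero (by norm_num) (by exact_mod_cast hD)
  rw [rkQ_eq, rkQ_eq]
  exact (LinearEquiv.finrank_eq (mpE h hD').toIntLinearEquiv).symm

end rk

end Pool.Agent.Y723.QT
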