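import Mathlib
import Pool.Agent.Y723.QT.Rf

/-!
# One curve: quadratic fields
-/

set_option autoImplicit false

namespace Pool.Agent.Y723.QT

open WeierstrassCurve

open Pool.Agent.TH841.NF

open Pool.Agent.W307.RT (Sh)

open Pool.Agent.Y682 (MP rsS coS_rsS)

/-- `K = ℚ(√q)` -/
def SqrtF (q : ℤ) (K : Type) [Field K] [NumberField K] : Prop :=
  ∃ r : K, r ^ 2 = (q : K) ∧ IntermediateField.adjoin ℚ {r} = ⊤

/-- rank zero and no elements of order two in the Tate-Shafarevich group -/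
def Tr (A B : ℤ) : Prop :=
  Pool.Agent.TH841.SH.D.rk (Sh A B) = 0 ∧ Kl (Pool.Agent.TH841.SH.D.Sha (Sh A B)) 0

section

variable {A B : ℤ} (hD : 4 * A ^ 3 + 27 * B ^ 2 ≠ 0) {e : ℤ} (he : e ^ 3 + A * e + B = 0)

lemma disc_q {q : ℤ} (hq : q ≠ 0) (hD : 4 * A ^ 3 + 27 * B ^ 2 ≠ 0) :
    4 * (q ^ 2 * A) ^ 3 + 27 * (q ^ 3 * B) ^ 2 ≠ 0 := by
  have h : 4 * (q ^ 2 * A) ^ 3 + 27 * (q ^ 3 * B) ^ 2 = q ^ 6 * (4 * A ^ 3 + 27 * B ^ 2) := by ring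
  rw [h]
  exact mul_ne_zero (pow_ne_zero 6 hq) hD

lemma root_q {q : ℤ} (he : e ^ 3 + A * e + B = 0) :
    (q * e) ^ 3 + (q ^ 2 * A) * (q * e) + q ^ 3 * B = 0 := by
  linear_combination q ^ 3 * he

include hD he

/-- finiteness of the elements of order two over `ℚ` -/
lemma tf_Q : Finite {x : Pool.Agent.TH841.SH.D.Sha (Sh A B) // x + x = 0} := by
  have h := tf_EF (F := ℚ) hD he
  obtain ⟨ε⟩ := exists_e ℚ
  have hinj : Function.Injective (rsS (sc_EF A B ℚ) ε) := by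
    rw [injective_iff_map_eq_zero]
    intro x hx
    have h1 := coS_rsS (sc_EF A B ℚ) ε x
    rw [hx, map_zero, Module.finrank_self, one_smul] at h1
    exact h1.symm
  exact Finite.of_injective (β := {x : D.Sha (EF A B ℚ) // x + x = 0})
    (fun x => ⟨rsS (sc_EF A B ℚ) ε x.1, by rw [← map_add, x.2, map_zero]⟩)
    (fun x y h => Subtype.ext (hinj (congrArg Subtype.val h)))

lemma fg_Q : Module.Finite ℤ (Sh A B).toAffine.Point := (finQ _).2 (fg_EF (F := ℚ) hD he)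

/-- a trivial twist: the rank and the finiteness do not change -/
theorem stable {q : ℤ} (hq : q ≠ 0) (ht : Tr (q ^ 2 * A) (q ^ 3 * B)) (K : Type) [Field K]
    [NumberField K] (hK : SqrtF q K) :
    D.rk (EF A B K) = Pool.Agent.TH841.SH.D.rk (Sh A B) ∧
    (F2 (D.Sha (EF A B K)) ↔ F2 (Pool.Agent.TH841.SH.D.Sha (Sh A B))) := by
  obtain ⟨r, hr, hgen⟩ := hK
  have htw : tw (q : ℚ) (Sh A B) = Sh (q ^ 2 * A) (q ^ 3 * B) := by
    apply WeierstrassCurve.ext <;> simp [tw, Sh]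
  refine ⟨le_antisymm ?_ (rk_ge hD he), ?_⟩
  · have h1 := rk_le hr hq hgen hD (fg_Q hD he) (fg_Q (disc_q hq hD) (root_q he))
    rw [ht.1, add_zero] at h1
    exact h1
  · rw [f2_iff (tf_EF (F := K) hD he), f2_iff (tf_Q hD he)]
    constructor
    · rintro ⟨n, hn⟩
      exact ⟨_, base_back hn⟩
    · rintro ⟨n, hn⟩
      refine ⟨n + 1, base_one (r := r) (d := (q : ℚ)) (by rw [hr, map_intCast])
        (by exact_mod_cast hq) hgen hn ?_⟩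
      rw [htw]
      exact ht.2.mono (Nat.zero_le n)

/-- two trivial curves -/
theorem triv2 {q : ℤ} (hq : q ≠ 0) (h0 : Tr A B) (ht : Tr (q ^ 2 * A) (q ^ 3 * B)) (K : Type)
    [Field K] [NumberField K] (hK : SqrtF q K) :
    D.rk (EF A B K) = 0 ∧ F2 (D.Sha (EF A B K)) ∧ Kl (D.Sha (EF A B K)) 1 := by
  obtain ⟨r, hr, hgen⟩ := hK
  have htw : tw (q : ℚ) (Sh A B) = Sh (q ^ 2 * A) (q ^ 3 * B) := by
    apply WeierstrassCurve.ext <;> simp [tw, Sh]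
  have h2 : Kl (D.Sha (EF A B K)) 1 :=
    base_one (n := 0) (r := r) (d := (q : ℚ)) (by rw [hr, map_intCast])
      (by exact_mod_cast hq) hgen h0.2 (by rw [htw]; exact ht.2)
  refine ⟨?_, (f2_iff (tf_EF (F := K) hD he)).2 ⟨1, h2⟩, h2⟩
  have h1 := rk_le hr hq hgen hD (fg_Q hD he) (fg_Q (disc_q hq hD) (root_q he))
  rw [ht.1, h0.1] at h1
  exact Nat.le_zero.1 h1

/-- the twists by `q₁` and `q₂` are trivial -/
theorem pairs {q₁ q₂ : ℤ} (h1 : q₁ ≠ 0) (h2 : q₂ ≠ 0) (t1 : Tr (q₁ ^ 2 * A) (q₁ ^ 3 * B))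
    (t2 : Tr (q₂ ^ 2 * A) (q₂ ^ 3 * B)) (K : Type) [Field K] [NumberField K]
    (hK : SqrtF (q₁ * q₂) K) :
    D.rk (EF (q₁ ^ 2 * A) (q₁ ^ 3 * B) K) = 0 ∧ F2 (D.Sha (EF (q₁ ^ 2 * A) (q₁ ^ 3 * B) K)) ∧
      Kl (D.Sha (EF (q₁ ^ 2 * A) (q₁ ^ 3 * B) K)) 1 := by
  obtain ⟨r, hr, hgen⟩ := hK
  have hq1 : (q₁ : ℚ) ≠ 0 := by exact_mod_cast h1
  have hq2 : (q₂ : ℚ) ≠ 0 := by exact_mod_cast h2
  have hK1 : (q₁ : K) ≠ 0 := by exact_mod_cast h1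
  have htw : tw ((q₂ : ℚ) / q₁) (Sh (q₁ ^ 2 * A) (q₁ ^ 3 * B)) =
      Sh (q₂ ^ 2 * A) (q₂ ^ 3 * B) := by
    apply WeierstrassCurve.ext
    · simp [tw, Sh]
    · simp [tw, Sh]
    · simp [tw, Sh]
    · simp only [tw, Sh]
      push_cast
      field_simp
    · simp only [tw, Sh]
      push_cast
      field_simp
  have hgen' : IntermediateField.adjoin ℚ {r / q₁} = ⊤ := by
    rw [eq_top_iff, ← hgen, IntermediateField.adjoin_le_iff, Set.singleton_subset_iff]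
    have h3 : r = (r / q₁) * q₁ := by field_simp
    have h4 : r / q₁ ∈ IntermediateField.adjoin ℚ {r / (q₁ : K)} :=
      IntermediateField.mem_adjoin_simple_self ℚ _
    have h5 : (q₁ : K) ∈ IntermediateField.adjoin ℚ {r / (q₁ : K)} := intCast_mem _ q₁
    have h6 := mul_mem h4 h5
    rw [← h3] at h6
    exact h6
  have hk : Kl (D.Sha (EF (q₁ ^ 2 * A) (q₁ ^ 3 * B) K)) 1 :=
    base_one (n := 0) (r := r / q₁) (d := (q₂ : ℚ) / q₁) (by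
      rw [div_pow, hr, map_div₀, map_intCast, map_intCast]
      push_cast
      field_simp) (div_ne_zero hq2 hq1) hgen' t1.2 (by rw [htw]; exact t2.2)
  refine ⟨?_, (f2_iff (tf_EF (F := K) (disc_q h1 hD) (root_q he))).2 ⟨1, hk⟩, hk⟩
  have h12 : q₁ * q₂ ≠ 0 := mul_ne_zero h1 h2
  have h3 := rk_le hr h12 hgen (disc_q h1 hD)
    (fg_Q (disc_q h1 hD) (root_q he)) (fg_Q (disc_q h12 (disc_q h1 hD)) (root_q (root_q he)))
  have e1 : (q₁ * q₂) ^ 2 * (q₁ ^ 2 * A) = q₁ ^ 4 * (q₂ ^ 2 * A) := by ring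
  have e2 : (q₁ * q₂) ^ 3 * (q₁ ^ 3 * B) = q₁ ^ 6 * (q₂ ^ 3 * B) := by ring
  rw [e1, e2, rk_scale h1 (disc_q h2 hD), t1.1, t2.1] at h3
  exact Nat.le_zero.1 h3

end

end Pool.Agent.Y723.QT
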