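import Pool.Agent.Y676.MainB

/-!
# A positive proportion of the small prime twists of fixed twists, for almost all tuples of curves
-/

set_option autoImplicit false

namespace Pool.Agent.Y723.QT

open Finset
open Pool.Agent.Y676
open Pool.Agent.W307.RT (Cv HasT Sh LOW)
open Pool.Agent.TH841.SH.D (ShaTor rk)

variable {k : ℕ}

/-- the multiples -/
def scl (d : Fin k → ℤ) (t : Fin k → ℤ × ℤ) : Fin k → ℤ × ℤ :=
  fun i => (d i * (t i).1, d i * (t i).2)

lemma scl_inj {d : Fin k → ℤ} (hd : ∀ i, d i ≠ 0) : Function.Injective (scl d) := by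
  intro t t' h
  funext i
  have h1 := congrFun h i
  unfold scl at h1
  rw [Prod.mk.injEq] at h1
  exact Prod.ext (mul_left_cancel₀ (hd i) h1.1) (mul_left_cancel₀ (hd i) h1.2)

lemma scl_mem {d : Fin k → ℤ} (hd : ∀ i, d i ≠ 0) {M T : ℕ} (hM : ∀ i, (d i).natAbs ≤ M)
    {t : Fin k → ℤ × ℤ} (ht : t ∈ TB k T) : scl d t ∈ TB k (M * T) := by
  rw [mem_TB] at ht ⊢
  intro i
  have h1 := ht i
  unfold Bx at h1 ⊢
  rw [mem_filter, mem_product, mem_Icc, mem_Icc] at h1 ⊢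
  obtain ⟨⟨⟨a1, a2⟩, b1, b2⟩, c1, c2, c3⟩ := h1
  have hdM : |d i| ≤ M := by
    rw [Int.abs_eq_natAbs]
    exact_mod_cast hM i
  have key : ∀ y : ℤ, -(T : ℤ) ≤ y → y ≤ T → |d i * y| ≤ ((M * T : ℕ) : ℤ) := by
    intro y h1 h2
    rw [abs_mul]
    push_cast
    exact mul_le_mul hdM (abs_le.2 ⟨h1, h2⟩) (abs_nonneg _) (by positivity)
  refine ⟨⟨abs_le.1 (key _ a1 a2), abs_le.1 (key _ b1 b2)⟩, mul_ne_zero (hd i) c1,
    mul_ne_zero (hd i) c2, fun h => c3 (mul_left_cancel₀ (hd i) h)⟩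

open Classical in
/-- the primes such that all the twists of the twists by `d` are trivial -/
noncomputable def TQD (d : Fin k → ℤ) (Q : ℕ) (x : Fin k → ℤ × ℤ) : Finset ℕ :=
  (Icc 1 Q).filter (fun q => q.Prime ∧ ∀ i, Triv q (d i ^ 2 * (x i).1, d i ^ 3 * (x i).2))

open Classical in
theorem mainD (hkey : S_KEY) (hmom : S_MOM) (k : ℕ) (d : Fin k → ℤ) (hd : ∀ i, d i ≠ 0)
    (ε : ℝ) (hε : 0 < ε) : ∃ c : ℝ, 0 < c ∧
    ∃ H0 : ℕ, ∀ H : ℕ, H0 ≤ H → ∀ Q : ℕ, (Real.log H) ^ (CE k + 1) ≤ Q →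
    (((CT k H).filter (fun x => ¬ c * Q / Real.log Q ≤ ((TQD d Q x).card : ℝ))).card : ℝ) ≤
      ε * ((Cv 2 H).card : ℝ) ^ k := by
  obtain ⟨M, hM1, hM⟩ : ∃ M : ℕ, 1 ≤ M ∧ ∀ i, (d i).natAbs ≤ M :=
    ⟨1 + ∑ i, (d i).natAbs, by omega, fun i => (single_le_sum (f := fun i => (d i).natAbs)
      (fun _ _ => Nat.zero_le _) (mem_univ i)).trans (by omega)⟩
  have hM0 : (0 : ℝ) < M := by exact_mod_cast hM1
  obtain ⟨K, hK, hT⟩ := transfer k
  obtain ⟨δ, hδ⟩ : ∃ δ : ℝ, δ = ε / (2 * (K + 1)) / (M : ℝ) ^ (2 * k) := ⟨_, rfl⟩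
  have hδ0 : 0 < δ := by rw [hδ]; positivity
  obtain ⟨Y1, hY12, hY1⟩ := box_all k δ hδ0
  obtain ⟨Y2, hY22, hY2⟩ := pos_count hkey hmom (δ / ((k + 1) * 9 ^ k)) (by positivity)
  obtain ⟨Y, hY⟩ : ∃ Y : ℕ, Y = max Y1 Y2 := ⟨_, rfl⟩
  have hYge : 2 ≤ Y := by rw [hY]; exact hY12.trans (le_max_left _ _)
  obtain ⟨X1, hX1⟩ := hY1 Y (by rw [hY]; exact le_max_left _ _)
  obtain ⟨c, hc, X2, hX2⟩ := hY2 Y (by rw [hY]; exact le_max_right _ _)
  have hW0 : 0 < WY Y := by unfold WY; have := Nat.factorial_pos Y; positivity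
  obtain ⟨c', Q0, hc', hpnt⟩ := Pool.Agent.Y157.SH.pnt (WY Y) hW0
  refine ⟨c ^ k / 2 * c', by positivity, ?_⟩
  have tL : Filter.Tendsto (fun X : ℕ => Real.log (X : ℝ)) Filter.atTop Filter.atTop :=
    Real.tendsto_log_atTop.comp tendsto_natCast_atTop_atTop
  obtain ⟨H1, hH1⟩ := Filter.eventually_atTop.1 ((tL.eventually_ge_atTop 1).and
    ((tL.eventually_ge_atTop (Q0 + 2)).and ((tL.eventually_ge_atTop (Real.log M)).and
      (tL.eventually_ge_atTop (2 ^ (CE k))))))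
  obtain ⟨H2, hH2⟩ := hT (X1 + X2 + 2)
  refine ⟨H1 + H2, fun H hH Q hQ => ?_⟩
  obtain ⟨b1, b3, b4, b5⟩ := hH1 H (by omega)
  obtain ⟨T, a1, a2, a3, a4⟩ := hH2 H (by omega)
  have hT0 : (0 : ℝ) < T := by exact_mod_cast (by omega : 0 < T)
  have hTM : T ≤ M * T := Nat.le_mul_of_pos_left _ (by omega)
  have hlogTH : Real.log ((M * T : ℕ) : ℝ) ≤ 2 * Real.log H := by
    push_cast
    rw [Real.log_mul hM0.ne' hT0.ne']
    have := Real.log_le_log hT0 (by exact_mod_cast a2 : (T : ℝ) ≤ H)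
    linarith
  have hlogT0 : 0 ≤ Real.log ((M * T : ℕ) : ℝ) :=
    Real.log_nonneg (by exact_mod_cast (by omega : 1 ≤ M * T))
  have hQT : (Real.log ((M * T : ℕ) : ℝ)) ^ (CE k) ≤ 2 * Q := by
    have h1 : (Real.log ((M * T : ℕ) : ℝ)) ^ (CE k) ≤ (2 * Real.log H) ^ (CE k) :=
      pow_le_pow_left₀ hlogT0 hlogTH _
    have h2 : (0 : ℝ) ≤ Q := Nat.cast_nonneg _
    have h3 : (2 * Real.log H) ^ (CE k) ≤ (Real.log H) ^ (CE k + 1) := by
      rw [mul_pow, pow_succ, mul_comm]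
      exact mul_le_mul_of_nonneg_left b5 (by positivity)
    linarith
  have hQQ : ((Q0 : ℝ) + 2) ≤ Q := by
    have e1 : Real.log H ≤ (Real.log H) ^ (CE k + 1) := le_self_pow₀ b1 (by omega)
    linarith
  have hQ0 : Q0 ≤ Q := by
    have : (Q0 : ℝ) ≤ Q := by linarith
    exact_mod_cast this
  -- the exceptional tuples of the box
  let p : (Fin k → ℤ × ℤ) → Prop := fun t => ¬ GT Y (M * T) Q t ∨ ∃ i, ¬ Pst Y c (t i)
  have hp : (((TB k (M * T)).filter p).card : ℝ) ≤ 2 * δ * ((M * T : ℕ) : ℝ) ^ (2 * k) := by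
    have hsub : (TB k (M * T)).filter p ⊆ (TB k (M * T)).filter (fun t => ¬ GT Y (M * T) Q t) ∪
        univ.biUnion (fun i : Fin k => (TB k (M * T)).filter (fun t => ¬ Pst Y c (t i))) := by
      intro t ht
      rw [mem_filter] at ht
      rw [mem_union, mem_filter, mem_biUnion]
      rcases ht.2 with h | ⟨i, h⟩
      · exact Or.inl ⟨ht.1, h⟩
      · exact Or.inr ⟨i, mem_univ _, mem_filter.2 ⟨ht.1, h⟩⟩
    have h1 := (card_le_card hsub).trans ((card_union_le _ _).trans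
      (Nat.add_le_add_left card_biUnion_le _))
    have h2 : (((TB k (M * T)).filter p).card : ℝ) ≤
        (((TB k (M * T)).filter (fun t => ¬ GT Y (M * T) Q t)).card : ℝ) +
        ∑ i : Fin k, (((TB k (M * T)).filter (fun t => ¬ Pst Y c (t i))).card : ℝ) := by
      exact_mod_cast h1
    have h3 := hX1 (M * T) (by omega) Q hQT
    have h4 : ∀ i ∈ (univ : Finset (Fin k)), (((TB k (M * T)).filter
        (fun t => ¬ Pst Y c (t i))).card : ℝ) ≤
        δ / ((k + 1) * 9 ^ k) * 9 ^ k * ((M * T : ℕ) : ℝ) ^ (2 * k) := fun i _ =>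
      tup_one (M * T) (by omega) (fun x => ¬ Pst Y c x) i _ (hX2 (M * T) (by omega))
    have h5 := sum_le_sum h4
    rw [sum_const, card_univ, Fintype.card_fin, nsmul_eq_mul] at h5
    have h6 : (k : ℝ) * (δ / ((k + 1) * 9 ^ k) * 9 ^ k * ((M * T : ℕ) : ℝ) ^ (2 * k)) =
        (k / (k + 1)) * (δ * ((M * T : ℕ) : ℝ) ^ (2 * k)) := by
      field_simp
    have h7 : (k : ℝ) / (k + 1) ≤ 1 := by
      rw [div_le_one (by positivity)]
      linarith
    have h8 : (k : ℝ) / (k + 1) * (δ * ((M * T : ℕ) : ℝ) ^ (2 * k)) ≤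
        1 * (δ * ((M * T : ℕ) : ℝ) ^ (2 * k)) :=
      mul_le_mul_of_nonneg_right h7 (by positivity)
    rw [h6] at h5
    linarith
  have hp2 : (((TB k T).filter (fun t => p (scl d t))).card : ℝ) ≤
      2 * δ * (M : ℝ) ^ (2 * k) * (T : ℝ) ^ (2 * k) := by
    have h1 : ((TB k T).filter (fun t => p (scl d t))).card ≤ ((TB k (M * T)).filter p).card := by
      apply card_le_card_of_injOn (scl d)
      · intro t ht
        rw [mem_coe, mem_filter] at ht
        rw [mem_coe, mem_filter]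
        exact ⟨scl_mem hd hM ht.1, ht.2⟩
      · exact (scl_inj hd).injOn
    have h2 : (((TB k T).filter (fun t => p (scl d t))).card : ℝ) ≤
        (((TB k (M * T)).filter p).card : ℝ) := by exact_mod_cast h1
    refine h2.trans (hp.trans (le_of_eq ?_))
    push_cast
    rw [mul_pow]
    ring
  have h5 := a4 (2 * δ * (M : ℝ) ^ (2 * k)) (by positivity) (fun t => p (scl d t)) hp2
  have hlQ : 0 < Real.log Q := by
    apply Real.log_pos
    have : (0 : ℝ) ≤ Q0 := Nat.cast_nonneg _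
    linarith
  have h6 : (((CT k H).filter (fun x => ¬ c ^ k / 2 * c' * Q / Real.log Q ≤
      ((TQD d Q x).card : ℝ))).card : ℝ) ≤
      (((CT k H).filter (fun x => p (scl d (fun i => Ab (x i))))).card : ℝ) := by
    have : (CT k H).filter (fun x => ¬ c ^ k / 2 * c' * Q / Real.log Q ≤
      ((TQD d Q x).card : ℝ)) ⊆ (CT k H).filter (fun x => p (scl d (fun i => Ab (x i)))) := by
      intro x hx
      rw [mem_filter] at hx ⊢
      refine ⟨hx.1, ?_⟩
      by_contra hcon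
      change ¬ (¬ GT Y (M * T) Q (scl d (fun i => Ab (x i))) ∨
        ∃ i, ¬ Pst Y c (scl d (fun i => Ab (x i)) i)) at hcon
      push Not at hcon
      obtain ⟨hG, hP⟩ := hcon
      apply hx.2
      obtain ⟨S, s2, s3⟩ := many_good2 hc (scl_mem hd hM (a3 x hx.1)) hG hP
      have hsub : S ⊆ TQD d Q x := by
        intro q hq
        obtain ⟨hqp, q1, q2⟩ := s2 q hq
        have hx1 := hx.1
        unfold CT at hx1
        rw [Fintype.mem_piFinset] at hx1
        unfold TQD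
        rw [mem_filter, mem_Icc]
        refine ⟨⟨hqp.one_lt.le, q1⟩, hqp, fun i => ?_⟩
        have hpr := pr_EE (hx1 i)
        obtain ⟨s, hs1, hs2⟩ := q2 i
        have hr := Pool.Agent.Y676.roots_tw hpr.rt (d i)
        have e1 : (scl d (fun i => Ab (x i)) i).1 =
            d i * (EE (x i)).2.1 - d i * (EE (x i)).1 := by
          unfold scl Pool.Agent.Y676.Ab
          ring
        have e2 : (scl d (fun i => Ab (x i)) i).2 =
            d i * (EE (x i)).2.2 - d i * (EE (x i)).1 := by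
          unfold scl Pool.Agent.Y676.Ab
          ring
        have t1 := hG.ty1 i
        rw [e1, e2] at t1 hs1 hs2
        exact tw_one (c := (d i ^ 2 * (x i).1, d i ^ 3 * (x i).2)) hr hYge t1 hs1 hs2
      have h7 : (S.card : ℝ) ≤ ((TQD d Q x).card : ℝ) := by exact_mod_cast card_le_card hsub
      refine le_trans ?_ (s3.trans h7)
      have h8 := hpnt Q hQ0
      have h9 : 0 ≤ c ^ k / 2 := by positivity
      calc c ^ k / 2 * c' * Q / Real.log Q = c ^ k / 2 * (c' * Q / Real.log Q) := by ring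
        _ ≤ _ := mul_le_mul_of_nonneg_left h8 h9
    exact_mod_cast card_le_card this
  refine h6.trans (h5.trans ?_)
  apply mul_le_mul_of_nonneg_right _ (by positivity)
  rw [hδ]
  have e1 : 2 * (ε / (2 * (K + 1)) / (M : ℝ) ^ (2 * k)) * (M : ℝ) ^ (2 * k) * K =
      ε * (K / (K + 1)) := by
    field_simp
  rw [e1]
  have e2 : K / (K + 1) ≤ 1 := by
    rw [div_le_one (by positivity)]
    linarith
  nlinarith

end Pool.Agent.Y723.QT
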